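import Pool.Agent.Helper54.DT.StmtsS

namespace Pool.Agent.Helper94.DCT

open Finset Pool.Agent.Helper54.ETR Pool.Agent.Helper54.Poly
open Pool.Agent.Helper54.DT

/-- Rows of linear atomic formulas. -/
theorem hx_row_lt (lin : List (Term × Term)) (r : ℕ) (hr : r < lin.length) :
    rowC oR (lin.map PPR) r = cf1 oR (PPR (lin[r])) := by
  funext m
  unfold rowC
  rw [if_pos (by simpa using hr)]
  rw [List.getD_eq_getElem?_getD, List.getElem?_map, List.getElem?_eq_getElem hr]
  rfl

theorem hx_row_eq (lin : List (Term × Term)) (M : ℕ) (hM : 2 ≤ M) (Z : ℕ → ℝ) :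
    lf M (rowC oR (lin.map PPR) lin.length) Z = Z 1 := by
  unfold lf
  rw [Finset.sum_eq_single_of_mem 1 (by simp; omega)]
  · unfold rowC
    simp [oR]
  · intro m _ hm
    unfold rowC
    simp [oR, hm]

theorem hx_row_gt (lin : List (Term × Term)) (M : ℕ) (Z : ℕ → ℝ) (q : ℕ)
    (hq : q / 2 + 1 < M) (hZ : Z 0 = 1) :
    lf M (rowC oR (lin.map PPR) (lin.length + 1 + q)) Z
      = 1 + (if q % 2 = 0 then -1 else 1) * Z (q / 2 + 1) := by
  have h : ∀ m, rowC oR (lin.map PPR) (lin.length + 1 + q) m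
      = if m = 0 then 1 else if m = q / 2 + 1 then (if q % 2 = 0 then -1 else 1) else 0 := by
    intro m
    unfold rowC
    rw [if_neg (by simp; omega), if_neg (by simp; omega)]
    have : lin.length + 1 + q - (lin.map PPR).length - 1 = q := by
      rw [List.length_map]; omega
    rw [this]
    simp [oR]
  unfold lf
  simp only [h]
  obtain ⟨M', rfl⟩ : ∃ M', M = M' + 1 := ⟨M - 1, by omega⟩
  rw [Finset.sum_range_succ', if_pos rfl, hZ, one_mul, add_comm]
  congr 1
  rw [Finset.sum_eq_single_of_mem (q / 2) (by simp; omega)]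
  · rw [if_neg (by omega), if_pos rfl]
  · intro m _ hm
    rw [if_neg (by omega), if_neg (by omega), zero_mul]

theorem hx_kd_lt (kl : List ℕ) (r : ℕ) (hr : r < kl.length) : rowK kl r = kl[r] := by
  unfold rowK
  rw [if_pos hr, List.getD_eq_getElem?_getD, List.getElem?_eq_getElem hr]
  rfl

theorem hx_kd_eq (kl : List ℕ) : rowK kl kl.length = 1 := by
  unfold rowK; simp

theorem hx_kd_gt (kl : List ℕ) (q : ℕ) : rowK kl (kl.length + 1 + q) = 2 := by
  unfold rowK
  rw [if_neg (by omega), if_neg (by omega)]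

theorem hx_cases (N n r : ℕ) (hr : r < N + 1 + 2 * (n + 1)) :
    r < N ∨ r = N ∨ ∃ q, r = N + 1 + q ∧ q / 2 + 1 < n + 2 := by
  rcases lt_trichotomy r N with h | h | h
  · exact Or.inl h
  · exact Or.inr (Or.inl h)
  · exact Or.inr (Or.inr ⟨r - N - 1, by omega, by omega⟩)

theorem hx_lin (h1 : ST_TAY1) (n : ℕ) (kl : List ℕ) (lin : List (Term × Term))
    (hL : LinOK n kl lin) (r : ℕ) (hr : r < lin.length) (u : ℝ) (x : ℕ → ℝ) :
    lf (n + 2) (rowC oR (lin.map PPR) r) (hX u x)
      = u * ((lin[r]).1.eval x - (lin[r]).2.eval x) := by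
  rw [hx_row_lt lin r hr]
  obtain ⟨a1, a2, a3, a4⟩ := hL.2.2 (lin[r]) (List.getElem_mem hr)
  exact h1 _ _ n a1 a2 a3 a4 u x

theorem hx_inK (h1 : ST_TAY1) (n : ℕ) (kl : List ℕ) (lin : List (Term × Term))
    (hL : LinOK n kl lin) (u : ℝ) (hu : 0 < u) (hu1 : u ≤ 1) (x : ℕ → ℝ)
    (hx : ∀ i < n, |u * x i| ≤ 1) (hA : LinAt kl lin x) :
    InK (n + 2) (lin.length + 1 + 2 * (n + 1)) (rowC oR (lin.map PPR)) (rowK kl) (hX u x) := by
  have hlen := hL.1
  have hat : ∀ r (hr : r < lin.length) (hr' : r < kl.length),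
      (kl[r] = 0 → (lin[r]).1.eval x = (lin[r]).2.eval x) ∧
      (kl[r] ≠ 0 → (lin[r]).2.eval x < (lin[r]).1.eval x) := by
    intro r hr hr'
    have hz : r < (kl.zip lin).length := by rw [List.length_zip]; omega
    have := hA ((kl.zip lin)[r]) (List.getElem_mem hz)
    rw [List.getElem_zip] at this
    exact this
  have hcube : ∀ q, q / 2 + 1 < n + 2 → |hX u x (q / 2 + 1)| ≤ 1 := by
    intro q hq
    rcases Nat.eq_zero_or_pos (q / 2) with h0 | h0
    · rw [h0]
      show |u| ≤ 1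
      rw [abs_of_pos hu]; exact hu1
    · obtain ⟨i, hi⟩ : ∃ i, q / 2 = i + 1 := ⟨q / 2 - 1, by omega⟩
      rw [hi]
      exact hx i (by omega)
  have hgt : ∀ q, q / 2 + 1 < n + 2 →
      0 ≤ lf (n + 2) (rowC oR (lin.map PPR) (lin.length + 1 + q)) (hX u x) := by
    intro q hq
    rw [hx_row_gt lin (n + 2) _ q hq rfl]
    have := abs_le.1 (hcube q hq)
    split_ifs <;> linarith [this.1, this.2]
  refine ⟨rfl, ?_, ?_, ?_⟩
  · intro r hr h0
    rcases hx_cases lin.length n r hr with h | h | ⟨q, h, hq⟩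
    · rw [hx_kd_lt kl r (by omega)] at h0
      rw [hx_lin h1 n kl lin hL r h, (hat r h (by omega)).1 h0, sub_self, mul_zero]
    · rw [h, ← hlen, hx_kd_eq] at h0
      omega
    · rw [h, ← hlen, hx_kd_gt] at h0
      omega
  · intro r hr h0
    rcases hx_cases lin.length n r hr with h | h | ⟨q, h, hq⟩
    · rw [hx_kd_lt kl r (by omega)] at h0
      rw [hx_lin h1 n kl lin hL r h]
      exact mul_pos hu (sub_pos.2 ((hat r h (by omega)).2 (by omega)))
    · rw [h, hx_row_eq lin (n + 2) (by omega)]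
      exact hu
    · rw [h, ← hlen, hx_kd_gt] at h0
      omega
  · intro r hr h0
    rcases hx_cases lin.length n r hr with h | h | ⟨q, h, hq⟩
    · rw [hx_kd_lt kl r (by omega)] at h0
      rw [hx_lin h1 n kl lin hL r h]
      exact (mul_pos hu (sub_pos.2 ((hat r h (by omega)).2 h0))).le
    · rw [h, hx_row_eq lin (n + 2) (by omega)]
      exact hu.le
    · rw [h]
      exact hgt q hq

theorem hx_bdd (n : ℕ) (kl : List ℕ) (lin : List (Term × Term)) (hlen : kl.length = lin.length) :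
    ∃ B, ∀ X, InC (n + 2) (lin.length + 1 + 2 * (n + 1)) (rowC oR (lin.map PPR)) (rowK kl) X →
      ∀ a < n + 2, |X a| ≤ B := by
  refine ⟨1, fun X hX a ha => ?_⟩
  rcases Nat.eq_zero_or_pos a with h0 | h0
  · rw [h0, hX.one]; simp
  obtain ⟨i, rfl⟩ : ∃ i, a = i + 1 := ⟨a - 1, by omega⟩
  have hk : ∀ q, q < 2 * (n + 1) → 0 ≤ 1 + (if q % 2 = 0 then -1 else 1) * X (q / 2 + 1) := by
    intro q hq
    have h1 := hX.weak (lin.length + 1 + q) (by omega)
      (by rw [← hlen, hx_kd_gt]; omega)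
    rwa [hx_row_gt lin (n + 2) X q (by omega) hX.one] at h1
  have e1 := hk (2 * i) (by omega)
  have e2 := hk (2 * i + 1) (by omega)
  rw [if_pos (by omega), show 2 * i / 2 + 1 = i + 1 by omega] at e1
  rw [if_neg (by omega), show (2 * i + 1) / 2 + 1 = i + 1 by omega] at e2
  rw [abs_le]
  constructor <;> linarith

theorem hx_tg (kl : List ℕ) (tg : ℕ → Bool) (h : ∀ r, rowK kl r = 0 → tg r = true) :
    (fun r => decide (rowK kl r = 0) || tg r) = tg := by
  funext r
  by_cases h0 : rowK kl r = 0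
  · rw [h r h0]; simp
  · simp [h0]

theorem st_HX (hS : ST_HS) (hC : ST_HC) (h1 : ST_TAY1) (h3 : ST_TAY3) (hE : ST_CFE) :
    ST_HX := by
  intro n kl lin f hL hf1 hf2 hf3 hf4
  have hT : Ten (cf3 oR (PPR f)) := (hE f (fun _ => 0)).2.2
  have hcub : ∀ (u : ℝ) (x : ℕ → ℝ), cub (n + 2) (cf3 oR (PPR f)) (hX u x)
      = 72 * u ^ 3 * (f.1.eval x - f.2.eval x) := fun u x => h3 f.1 f.2 n hf1 hf2 hf3 hf4 u x
  have hlen := hL.1
  constructor
  · intro tg md y L X ε htg hH
    obtain ⟨Z, hZ, hc, hc'⟩ := hS (n + 2) (lin.length + 1 + 2 * (n + 1))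
      (rowC oR (lin.map PPR)) (rowK kl) tg (cf3 oR (PPR f)) md y L X ε (by omega) hT
      (fun r _ h => htg r h) hH
    have hu : 0 < Z 1 := by
      have := hZ.pos lin.length (by omega) (by rw [← hlen, hx_kd_eq])
      rwa [hx_row_eq lin (n + 2) (by omega)] at this
    have hZX : Z = hX (Z 1) (fun i => Z (i + 2) / Z 1) := by
      funext m
      match m with
      | 0 => exact hZ.one
      | 1 => rfl
      | i + 2 =>
        show Z (i + 2) = Z 1 * (Z (i + 2) / Z 1)
        rw [mul_div_cancel₀ _ hu.ne']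
    obtain ⟨u, x, hu, hZX⟩ : ∃ (u : ℝ) (x : ℕ → ℝ), 0 < u ∧ Z = hX u x :=
      ⟨_, _, hu, hZX⟩
    subst hZX
    rw [hcub] at hc hc'
    have hu3 : 0 < 72 * u ^ 3 := by positivity
    refine ⟨x, ?_, ?_, ?_⟩
    · intro z hz
      obtain ⟨r, hr, rfl⟩ := List.mem_iff_getElem.1 hz
      rw [List.length_zip] at hr
      have hr1 : r < kl.length := by omega
      have hr2 : r < lin.length := by omega
      rw [List.getElem_zip]
      have hlf := hx_lin h1 n kl lin hL r hr2 u x
      constructor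
      · intro h0
        have h4 := hZ.eqz r (by omega) (by rw [hx_kd_lt kl r hr1]; exact h0)
        rw [hlf] at h4
        rcases mul_eq_zero.1 h4 with h5 | h5
        · exact absurd h5 hu.ne'
        · exact sub_eq_zero.1 h5
      · intro h0
        have hk : kl[r] ≤ 1 := hL.2.1 _ (List.getElem_mem hr1)
        have h0' : kl[r] ≠ 0 := h0
        have h4 := hZ.pos r (by omega) (by rw [hx_kd_lt kl r hr1]; omega)
        rw [hlf] at h4
        exact sub_pos.1 ((mul_pos_iff_of_pos_left hu).1 h4)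
    · by_contra h5
      push Not at h5
      have := mul_pos hu3 (sub_pos.2 h5)
      linarith
    · intro hmd
      have := hc' hmd
      by_contra h5
      push Not at h5
      have := mul_nonneg hu3.le (sub_nonneg.2 h5)
      linarith
  · intro x hA
    obtain ⟨σ, hσ⟩ : ∃ σ, σ = ∑ i ∈ range n, |x i| := ⟨_, rfl⟩
    have hσ0 : 0 ≤ σ := by rw [hσ]; exact Finset.sum_nonneg fun i _ => abs_nonneg _
    have hxi : ∀ i < n, |x i| ≤ σ := by
      intro i hi
      rw [hσ]
      exact Finset.single_le_sum (f := fun i => |x i|) (fun i _ => abs_nonneg _)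
        (Finset.mem_range.2 hi)
    have hu : 0 < 1 / (1 + σ) := by positivity
    have hu1 : 1 / (1 + σ) ≤ 1 := by
      rw [div_le_one (by linarith)]; linarith
    have hux : ∀ i < n, |1 / (1 + σ) * x i| ≤ 1 := by
      intro i hi
      rw [abs_mul, abs_of_pos hu, div_mul_eq_mul_div, one_mul, div_le_one (by linarith)]
      linarith [hxi i hi]
    have hK := hx_inK h1 n kl lin hL _ hu hu1 x hux hA
    have hmain := hC (n + 2) (lin.length + 1 + 2 * (n + 1)) (rowC oR (lin.map PPR)) (rowK kl)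
      (cf3 oR (PPR f)) (by omega) hT (hx_bdd n kl lin hlen) _ hK
    rw [hcub] at hmain
    have hu3 : 0 < 72 * (1 / (1 + σ)) ^ 3 := by positivity
    constructor
    · intro hlt
      obtain ⟨tg, y, L, Z, ε, h5, h6⟩ := hmain.1 (mul_neg_of_pos_of_neg hu3 (sub_neg.2 hlt))
      refine ⟨tg, y, L, Z, ε, ?_⟩
      rw [hx_tg kl tg h5]
      exact h6
    · intro hle
      obtain ⟨md, tg, y, L, Z, ε, h5, h6⟩ := hmain.2
        (mul_nonpos_of_nonneg_of_nonpos hu3.le (sub_nonpos.2 hle))
      refine ⟨md, tg, y, L, Z, ε, ?_⟩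
      rw [hx_tg kl tg h5]
      exact h6

end Pool.Agent.Helper94.DCT
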