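import Pool.Agent.Helper54.DT.StmtsS

/-! The matrices of the semidefinite programs are computable in polynomial time. -/

namespace Pool.Agent.Helper94.DCT

open Finset Pool.Agent.Helper54.ETR Pool.Agent.Helper54.Poly
open Pool.Agent.Helper54.DT

section lib
variable {α β γ : Type} [TEnc α] [TEnc β] [TEnc γ]

theorem pth_ite {c : α → Prop} [∀ a, Decidable (c a)] {f g : α → β}
    (hc : PT (fun a => decide (c a))) (hf : PT f) (hg : PT g) :
    PT (fun a => if c a then f a else g a) :=
  (PT.ite hc hf hg).congr fun a => by by_cases h : c a <;> simp [h]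

theorem pth_rfm {n : α → ℕ} {f : α → ℕ → List γ} (hn : PT n)
    (hf : PT (fun z : α × ℕ => f z.1 z.2)) :
    PT (fun a => (List.range (n a)).flatMap fun i => f a i) :=
  PT.flatMap (f := fun z : α × ℕ => f z.1 z.2) hf (PT.range hn)

theorem pth_rmap {n : α → ℕ} {f : α → ℕ → γ} (hn : PT n)
    (hf : PT (fun z : α × ℕ => f z.1 z.2)) :
    PT (fun a => (List.range (n a)).map fun i => f a i) :=
  PT.map (f := fun z : α × ℕ => f z.1 z.2) hf (PT.range hn)

theorem pth_len (n k : ℕ) :
    ((List.range n).flatMap fun j => if j < k then [()] else []).length = min n k := by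
  induction n with
  | zero => simp
  | succ n ih =>
    rw [List.range_succ, List.flatMap_append, List.length_append, ih]
    by_cases h : n < k
    · simp [h]; omega
    · simp [h]; omega

theorem pth_ltN {f g : α → ℕ} (hf : PT f) (hg : PT g) : PT (fun a => decide (f a < g a)) :=
  PT.leN (PT.succ hf) hg

theorem pth_div {f g : α → ℕ} (hf : PT f) (hg : PT g) : PT (fun a => f a / g a) := by
  have h1 : PT (fun a => ((List.range (f a)).flatMap fun j =>
      if (j + 1) * g a ≤ f a ∧ 1 ≤ g a then [()] else []).length) := by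
    refine PT.length (pth_rfm hf (f := fun a j =>
      if (j + 1) * g a ≤ f a ∧ 1 ≤ g a then [()] else []) ?_)
    refine pth_ite ?_ (PT.const _) (PT.const _)
    refine (PT.and (PT.leN (PT.mul (PT.succ PT.id.snd) (hg.comp PT.id.fst)) (hf.comp PT.id.fst))
      (PT.leN (PT.const 1) (hg.comp PT.id.fst))).congr fun a => ?_
    rw [Bool.eq_iff_iff]
    simp only [Bool.and_eq_true, decide_eq_true_eq]
  refine h1.congr fun a => ?_
  have h2 := pth_len (f a) (f a / g a)
  rw [min_eq_right (Nat.div_le_self _ _)] at h2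
  refine Eq.trans ?_ h2
  congr 2
  funext j
  by_cases hg0 : 1 ≤ g a
  · have : ((j + 1) * g a ≤ f a ∧ 1 ≤ g a) ↔ j < f a / g a := by
      rw [← Nat.le_div_iff_mul_le hg0]
      constructor
      · rintro ⟨h, -⟩; omega
      · intro h; exact ⟨by omega, hg0⟩
    simp only [this]
  · have h0 : g a = 0 := by omega
    simp [h0]

theorem pth_mod {f g : α → ℕ} (hf : PT f) (hg : PT g) : PT (fun a => f a % g a) :=
  (PT.sub hf (PT.mul hg (pth_div hf hg))).congr fun _ => (Nat.mod_def _ _).symm

theorem pth_npair {f g : α → ℕ} (hf : PT f) (hg : PT g) : PT (fun a => Nat.pair (f a) (g a)) := by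
  unfold Nat.pair
  exact pth_ite (pth_ltN hf hg) (PT.add (PT.mul hg hg) hf)
    (PT.add (PT.add (PT.mul hf hf) hf) hg)

theorem pth_vy (h : ℕ) {a b c : α → ℕ} (ha : PT a) (hb : PT b) (hc : PT c) :
    PT (fun z => vy h (a z) (b z) (c z)) :=
  PT.add (PT.mul (PT.const 2) (PT.mul (PT.const 3) (pth_npair (pth_npair ha hb) hc)))
    (PT.const h)

theorem pth_vL (h : ℕ) {r a b c : α → ℕ} (hr : PT r) (ha : PT a) (hb : PT b) (hc : PT c) :
    PT (fun z => vL h (r z) (a z) (b z) (c z)) :=
  PT.add (PT.mul (PT.const 2) (PT.succ (PT.mul (PT.const 3)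
    (pth_npair (pth_npair hr ha) (pth_npair hb hc))))) (PT.const h)

theorem pth_vX (h : ℕ) {a : α → ℕ} (ha : PT a) : PT (fun z => vX h (a z)) :=
  PT.add (PT.mul (PT.const 2) (PT.add (PT.mul (PT.const 3) (PT.add ha (PT.const 2)))
    (PT.const 2))) (PT.const h)

theorem pth_var {f : α → ℕ} (hf : PT f) : PT (fun a => oK.var (f a)) :=
  PT.lcons (PT.const _) (PT.append (PT.replicate hf (PT.const _)) (PT.const _))

theorem pth_add {f g : α → List Tok} (hf : PT f) (hg : PT g) :
    PT (fun a => oK.add (f a) (g a)) := PT.lcons (PT.const _) (PT.append hf hg)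

theorem pth_sub {f g : α → List Tok} (hf : PT f) (hg : PT g) :
    PT (fun a => oK.sub (f a) (g a)) := PT.lcons (PT.const _) (PT.append hf hg)

theorem pth_mul {f g : α → List Tok} (hf : PT f) (hg : PT g) :
    PT (fun a => oK.mul (f a) (g a)) := PT.lcons (PT.const _) (PT.append hf hg)

theorem pth_sumO_eq (l : List (List Tok)) :
    (l.flatMap fun t => Tok.add :: t) ++ [Tok.zero] = sumO oK l := by
  induction l with
  | nil => rfl
  | cons t l ih =>
    rw [List.flatMap_cons, List.append_assoc, ih]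
    rfl

theorem pth_sumO {l : α → List (List Tok)} (hl : PT l) : PT (fun a => sumO oK (l a)) := by
  have h1 : PT (fun z : α × List Tok => Tok.add :: z.2) := PT.lcons (PT.const _) PT.id.snd
  exact (PT.append (PT.flatMap h1 hl) (PT.const _)).congr fun a => pth_sumO_eq (l a)

theorem pth_linE {M : α → ℕ} {e : α → ℕ → List Tok} {v : α → ℕ → ℕ} (hM : PT M)
    (he : PT (fun z : α × ℕ => e z.1 z.2)) (hv : PT (fun z : α × ℕ => v z.1 z.2)) :
    PT (fun a => linE oK (M a) (e a) (v a)) :=
  pth_sumO (pth_rmap hM (pth_mul he (pth_var hv)))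

theorem pth_one {f : α → β} (hf : PT f) : PT (fun a => [f a]) := PT.lcons hf (PT.const [])

theorem pth_eqn {f : α → List Tok} (hf : PT f) : PT (fun a => eqn oK (f a)) :=
  PT.lcons (pth_one (pth_one hf)) (pth_one (pth_one (pth_one (pth_sub (PT.const _) hf))))

end lib

theorem st_PTH : ST_PTH := by
  intro α _ M R E kd tg S md h hM hR hE hkd htg hS hmd
  have E' : ∀ {γ : Type} [TEnc γ] {a : γ → α} {r m : γ → ℕ}, PT a → PT r → PT m →
      PT (fun z => E (a z) (r z) (m z)) := fun ha hr hm => hE.comp (ha.pair (hr.pair hm))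
  have S' : ∀ {γ : Type} [TEnc γ] {a : γ → α} {r m k : γ → ℕ}, PT a → PT r → PT m → PT k →
      PT (fun z => S (a z) (r z) (m z) (k z)) :=
    fun ha hr hm hk => hS.comp (ha.pair (hr.pair (hm.pair hk)))
  have kd' : ∀ {γ : Type} [TEnc γ] {a : γ → α} {r : γ → ℕ}, PT a → PT r →
      PT (fun z => kd (a z) (r z)) := fun ha hr => hkd.comp (ha.pair hr)
  have tg' : ∀ {γ : Type} [TEnc γ] {a : γ → α} {r : γ → ℕ}, PT a → PT r →
      PT (fun z => tg (a z) (r z)) := fun ha hr => htg.comp (ha.pair hr)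
  have M' : ∀ {γ : Type} [TEnc γ] {a : γ → α}, PT a → PT (fun z => M (a z)) :=
    fun ha => hM.comp ha
  have R' : ∀ {γ : Type} [TEnc γ] {a : γ → α}, PT a → PT (fun z => R (a z)) :=
    fun ha => hR.comp ha
  -- contexts
  have c1 : PT (fun z : α × ℕ => z.1) := PT.id.fst
  have c2 : PT (fun z : (α × ℕ) × ℕ => z.1.1) := PT.id.fst.fst
  have c3 : PT (fun z : ((α × ℕ) × ℕ) × ℕ => z.1.1.1) := PT.id.fst.fst.fst
  have c3a : PT (fun z : ((α × ℕ) × ℕ) × ℕ => z.1.1.2) := PT.id.fst.fst.snd
  have c3b : PT (fun z : ((α × ℕ) × ℕ) × ℕ => z.1.2) := PT.id.fst.snd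
  have c3c : PT (fun z : ((α × ℕ) × ℕ) × ℕ => z.2) := PT.id.snd
  have c4 : PT (fun z : (((α × ℕ) × ℕ) × ℕ) × ℕ => z.1.1.1.1) := PT.id.fst.fst.fst.fst
  have c4a : PT (fun z : (((α × ℕ) × ℕ) × ℕ) × ℕ => z.1.1.1.2) := PT.id.fst.fst.fst.snd
  have c4b : PT (fun z : (((α × ℕ) × ℕ) × ℕ) × ℕ => z.1.1.2) := PT.id.fst.fst.snd
  have c4c : PT (fun z : (((α × ℕ) × ℕ) × ℕ) × ℕ => z.1.2) := PT.id.fst.snd
  have c4d : PT (fun z : (((α × ℕ) × ℕ) × ℕ) × ℕ => z.2) := PT.id.snd
  have p1 : PT (fun a : α => eqn oK (oK.sub (oK.var (vy h 0 0 0)) oK.one)) := PT.const _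
  have p2 : PT (fun a => (List.range (M a)).flatMap fun x => (List.range (M a)).flatMap fun y =>
      (List.range (M a)).flatMap fun z =>
      [[[oK.sub (oK.var (vy h x y z)) (oK.var (vy h y x z))]],
       [[oK.sub (oK.var (vy h x y z)) (oK.var (vy h x z y))]]]) := by
    refine pth_rfm hM (pth_rfm (M' c1) (pth_rfm (M' c2) ?_))
    exact PT.lcons (pth_one (pth_one (pth_sub (pth_var (pth_vy h c3a c3b c3c))
      (pth_var (pth_vy h c3b c3a c3c)))))
      (pth_one (pth_one (pth_one (pth_sub (pth_var (pth_vy h c3a c3b c3c))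
      (pth_var (pth_vy h c3a c3c c3b))))))
  have p3 : PT (fun a => [(List.range (M a)).map fun x => (List.range (M a)).map fun y =>
      oK.add (oK.var (vy h 0 x y)) (oK.var (vy h 0 y x))]) := by
    refine pth_one (pth_rmap hM (pth_rmap (M' c1) ?_))
    exact pth_add (pth_var (pth_vy h (PT.const 0) PT.id.fst.snd PT.id.snd))
      (pth_var (pth_vy h (PT.const 0) PT.id.snd PT.id.fst.snd))
  have p4 : PT (fun a => (List.range (R a)).flatMap fun r => if tg a r then
      (List.range (M a)).flatMap fun x => (List.range (M a)).flatMap fun y =>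
        eqn oK (linE oK (M a) (E a r) fun m => vy h m x y) else []) := by
    refine pth_rfm hR (PT.ite (tg' PT.id.fst PT.id.snd)
      (pth_rfm (M' c1) (pth_rfm (M' c2) (pth_eqn ?_))) (PT.const _))
    exact pth_linE (M' c3) (E' c4 c4a c4d) (pth_vy h c4d c4b c4c)
  have p5 : PT (fun a => (List.range (R a)).flatMap fun r => if kd a r = 0 then [] else
      [[[linE oK (M a) (E a r) fun m => vy h m 0 0]]]) := by
    refine pth_rfm hR (pth_ite (PT.eqN (kd' PT.id.fst PT.id.snd) (PT.const 0)) (PT.const _)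
      (pth_one (pth_one (pth_one ?_))))
    exact pth_linE (M' c1) (E' c2 PT.id.fst.snd PT.id.snd)
      (pth_vy h PT.id.snd (PT.const 0) (PT.const 0))
  have p6 : PT (fun a => (List.range (R a)).flatMap fun r => if tg a r then
      (List.range (M a)).flatMap fun b => (List.range (M a)).flatMap fun c =>
        eqn oK (linE oK (M a) (E a r) fun m => vL h r m b c) else []) := by
    refine pth_rfm hR (PT.ite (tg' PT.id.fst PT.id.snd)
      (pth_rfm (M' c1) (pth_rfm (M' c2) (pth_eqn ?_))) (PT.const _))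
    exact pth_linE (M' c3) (E' c4 c4a c4d) (pth_vL h c4a c4d c4b c4c)
  have hloc : ∀ {γ : Type} [TEnc γ] {k : γ → α} {a α' b β : γ → ℕ}, PT k → PT a → PT α' →
      PT b → PT β → PT (fun z => locE oK (M (k z)) (R (k z)) (E (k z)) (tg (k z)) (S (k z)) h
        (a z) (α' z) (b z) (β z)) := by
    intro γ _ k a α' b β hk ha hα hb hβ
    have d : PT (fun z : γ × ℕ => z.1) := PT.id.fst
    have e : PT (fun z : γ × ℕ => z.2) := PT.id.snd
    refine pth_add (pth_sumO (pth_rmap (M' hk) (pth_mul (S' (hk.comp d) (ha.comp d) (hb.comp d) e)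
      (pth_add (pth_var (pth_vy h e (hα.comp d) (hβ.comp d)))
        (pth_var (pth_vy h e (hβ.comp d) (hα.comp d)))))))
      (pth_sumO (pth_rmap (R' hk) (PT.ite (tg' (hk.comp d) e) ?_ (PT.const _))))
    exact pth_add
      (pth_mul (E' (hk.comp d) e (ha.comp d))
        (pth_var (pth_vL h e (hα.comp d) (hb.comp d) (hβ.comp d))))
      (pth_mul (E' (hk.comp d) e (hb.comp d))
        (pth_var (pth_vL h e (hβ.comp d) (ha.comp d) (hα.comp d))))
  have p7 : PT (fun a => [(List.range ((M a - 1) * M a)).map fun i =>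
      (List.range ((M a - 1) * M a)).map fun j =>
      locE oK (M a) (R a) (E a) (tg a) (S a) h (i / M a + 1) (i % M a) (j / M a + 1)
        (j % M a)]) := by
    have hN : PT (fun a => (M a - 1) * M a) := PT.mul (PT.sub hM (PT.const 1)) hM
    refine pth_one (pth_rmap hN (pth_rmap (hN.comp c1) ?_))
    exact hloc c2 (PT.succ (pth_div PT.id.fst.snd (M' c2))) (pth_mod PT.id.fst.snd (M' c2))
      (PT.succ (pth_div PT.id.snd (M' c2))) (pth_mod PT.id.snd (M' c2))
  have p8 : PT (fun a : α => eqn oK (oK.sub (oK.var (vX h 0)) oK.one)) := PT.const _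
  have p9 : PT (fun a => (List.range (R a)).flatMap fun r =>
      if kd a r = 0 then eqn oK (linE oK (M a) (E a r) (vX h)) else
      if kd a r = 1 then [[[oK.sub (linE oK (M a) (E a r) (vX h)) (oK.var (ve h))]],
        [[linE oK (M a) (E a r) (vX h)]]]
      else [[[linE oK (M a) (E a r) (vX h)]]]) := by
    have hl : PT (fun z : α × ℕ => linE oK (M z.1) (E z.1 z.2) (vX h)) :=
      pth_linE (M' c1) (E' c2 PT.id.fst.snd PT.id.snd) (pth_vX h PT.id.snd)
    refine pth_rfm hR (pth_ite (PT.eqN (kd' PT.id.fst PT.id.snd) (PT.const 0)) (pth_eqn hl)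
      (pth_ite (PT.eqN (kd' PT.id.fst PT.id.snd) (PT.const 1)) ?_
        (pth_one (pth_one (pth_one hl)))))
    exact PT.lcons (pth_one (pth_one (pth_sub hl (PT.const _))))
      (pth_one (pth_one (pth_one hl)))
  have p10 : PT (fun a : α => [[[oK.var (ve h), oK.one], [oK.one, oK.var (vt2 h)]]]) :=
    PT.const _
  have hobj : PT (fun a => objE oK (M a) (S a) h) := by
    refine pth_sumO (pth_rfm hM (pth_rfm (M' c1) (pth_rmap (M' c2) ?_)))
    exact pth_mul (S' c3 c3a c3b c3c) (pth_var (pth_vy h c3a c3b c3c))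
  have p11 : PT (fun a => if md a then [[[oK.sub (oK.sub oK.zero (objE oK (M a) (S a) h))
      (oK.var (ve h))]]] else [[oK.sub oK.zero (objE oK (M a) (S a) h)]] ::
      ((List.range (M a)).flatMap fun x =>
        eqn oK (oK.sub (oK.var (vX h x)) (oK.var (vy h x 0 0))))) := by
    refine PT.ite hmd
      (pth_one (pth_one (pth_one (pth_sub (pth_sub (PT.const _) hobj) (PT.const _)))))
      (PT.lcons (pth_one (pth_one (pth_sub (PT.const _) hobj)))
        (pth_rfm hM (pth_eqn (pth_sub (pth_var (pth_vX h PT.id.snd))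
          (pth_var (pth_vy h PT.id.snd (PT.const 0) (PT.const 0)))))))
  exact PT.append (PT.append (PT.append (PT.append (PT.append (PT.append (PT.append (PT.append
    (PT.append (PT.append p1 p2) p3) p4) p5) p6) p7) p8) p9) p10) p11

end Pool.Agent.Helper94.DCT
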